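import Pool.Agent.TH869.EVF.Block

set_option autoImplicit false

/-! High moments of sums over primes of centred periodic functions. -/

namespace Pool.Agent.R418.GE

open Finset Pool.Agent.TH869.EVF

theorem per_prod (s : Finset ℕ) (F : ℕ → ℕ → ℝ) (M : ℕ) (hF : ∀ p ∈ s, Per (F p) M) :
    Per (fun n => ∏ p ∈ s, F p n) M := by
  intro n
  exact prod_congr rfl fun p hp => hF p hp n

/-- complete sums over a product of distinct primes -/
theorem sum_prod (P : Finset ℕ) (hP : ∀ p ∈ P, p.Prime) (F : ℕ → ℕ → ℝ)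
    (hF : ∀ p ∈ P, Per (F p) p) :
    ∑ n ∈ range (∏ p ∈ P, p), ∏ p ∈ P, F p n = ∏ p ∈ P, ∑ n ∈ range p, F p n := by
  classical
  induction P using Finset.induction_on with
  | empty => simp
  | insert a s ha ih =>
    have hs : ∀ p ∈ s, p.Prime := fun p hp => hP p (mem_insert_of_mem hp)
    have hap := hP a (mem_insert_self _ _)
    have hF' : ∀ p ∈ s, Per (F p) p := fun p hp => hF p (mem_insert_of_mem hp)
    have hcop : Nat.Coprime a (∏ p ∈ s, p) := by
      apply Nat.Coprime.prod_right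
      intro p hp
      exact (Nat.coprime_primes hap (hs p hp)).mpr (fun h => ha (h ▸ hp))
    have hpos : 0 < ∏ p ∈ s, p := prod_pos fun p hp => (hs p hp).pos
    rw [prod_insert ha, prod_insert ha, ← ih hs hF', ← sum_mul_per hap.pos hpos hcop
      (hF a (mem_insert_self _ _))
      (per_prod s F _ fun p hp => (hF' p hp).of_dvd (dvd_prod_of_mem _ hp))]
    exact sum_congr rfl fun n _ => by rw [prod_insert ha]

/-- the exponential moment -/
theorem exp_moment (P : Finset ℕ) (hP : ∀ p ∈ P, p.Prime) (h : ℕ → ℕ → ℝ)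
    (hper : ∀ p ∈ P, Per (h p) p) (h1 : ∀ p n, |h p n| ≤ 1)
    (h0 : ∀ p ∈ P, ∑ n ∈ range p, h p n = 0) (t : ℝ) (ht : |t| ≤ 1) :
    ∑ n ∈ range (∏ p ∈ P, p), Real.exp (t * ∑ p ∈ P, h p n) ≤
      ((∏ p ∈ P, p : ℕ) : ℝ) * Real.exp (t ^ 2 * ∑ p ∈ P, (∑ n ∈ range p, h p n ^ 2) / p) := by
  have e1 : ∑ n ∈ range (∏ p ∈ P, p), Real.exp (t * ∑ p ∈ P, h p n) =
      ∏ p ∈ P, ∑ n ∈ range p, Real.exp (t * h p n) := by
    rw [← sum_prod P hP (fun p n => Real.exp (t * h p n))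
      (fun p hp n => by simp only [hper p hp n])]
    refine sum_congr rfl fun n _ => ?_
    rw [mul_sum, Real.exp_sum]
  rw [e1, mul_sum, Real.exp_sum]
  push_cast
  rw [← prod_mul_distrib]
  refine prod_le_prod (fun p _ => sum_nonneg fun n _ => (Real.exp_pos _).le) fun p hp => ?_
  have hp0 : (0 : ℝ) < p := by exact_mod_cast (hP p hp).pos
  have h2 : ∑ n ∈ range p, Real.exp (t * h p n) ≤
      ∑ n ∈ range p, (1 + t * h p n + t ^ 2 * h p n ^ 2) := by
    refine sum_le_sum fun n _ => ?_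
    have h3 : |t * h p n| ≤ 1 := by
      rw [abs_mul]
      exact mul_le_one₀ ht (abs_nonneg _) (h1 p n)
    have h4 := (abs_le.mp (Real.abs_exp_sub_one_sub_id_le h3)).2
    rw [mul_pow] at h4
    linarith
  have h5 : ∑ n ∈ range p, (1 + t * h p n + t ^ 2 * h p n ^ 2) =
      p * (1 + t ^ 2 * ((∑ n ∈ range p, h p n ^ 2) / p)) := by
    rw [sum_add_distrib, sum_add_distrib, ← mul_sum, ← mul_sum, h0 p hp, sum_const, card_range,
      nsmul_eq_mul]
    field_simp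
    ring
  refine h2.trans (h5.le.trans ?_)
  refine mul_le_mul_of_nonneg_left ?_ hp0.le
  have := Real.add_one_le_exp (t ^ 2 * ((∑ n ∈ range p, h p n ^ 2) / p))
  linarith

/-- even moments over a complete period -/
theorem full_moment (P : Finset ℕ) (hP : ∀ p ∈ P, p.Prime) (h : ℕ → ℕ → ℝ)
    (hper : ∀ p ∈ P, Per (h p) p) (h1 : ∀ p n, |h p n| ≤ 1)
    (h0 : ∀ p ∈ P, ∑ n ∈ range p, h p n = 0) (V : ℝ) (hV1 : 1 ≤ V)
    (hV : ∑ p ∈ P, (∑ n ∈ range p, h p n ^ 2) / p ≤ V) (k : ℕ) :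
    ∑ n ∈ range (∏ p ∈ P, p), (∑ p ∈ P, h p n) ^ (2 * k) ≤
      ((∏ p ∈ P, p : ℕ) : ℝ) * ((2 * k).factorial * (2 * Real.exp 1) * V ^ k) := by
  have hV0 : 0 < V := by linarith
  obtain ⟨t, ht⟩ : ∃ t : ℝ, t = 1 / √V := ⟨_, rfl⟩
  have hsV : 1 ≤ √V := Real.one_le_sqrt.mpr hV1
  have hsV0 : 0 < √V := by linarith
  have ht0 : 0 < t := by rw [ht]; positivity
  have ht1 : t ≤ 1 := by rw [ht, div_le_one hsV0]; exact hsV
  have ht2 : t ^ 2 * V = 1 := by
    rw [ht, div_pow, one_pow, Real.sq_sqrt hV0.le]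
    exact div_mul_cancel₀ 1 hV0.ne'
  have hpt : ∀ n, (∑ p ∈ P, h p n) ^ (2 * k) ≤ ((2 * k).factorial * V ^ k) *
      (Real.exp (t * ∑ p ∈ P, h p n) + Real.exp (-t * ∑ p ∈ P, h p n)) := by
    intro n
    obtain ⟨S, hS⟩ : ∃ S : ℝ, S = ∑ p ∈ P, h p n := ⟨_, rfl⟩
    rw [← hS]
    have e1 : S ^ (2 * k) = V ^ k * |t * S| ^ (2 * k) := by
      rw [pow_mul |t * S|, sq_abs, mul_pow, mul_pow, ← mul_assoc, ← mul_pow, mul_comm V, ht2,
        one_pow, one_mul, pow_mul]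
    have hf : (0 : ℝ) < ((2 * k).factorial : ℝ) := by exact_mod_cast Nat.factorial_pos _
    have e2 : |t * S| ^ (2 * k) ≤ (2 * k).factorial * Real.exp |t * S| := by
      have := Real.pow_div_factorial_le_exp |t * S| (abs_nonneg (t * S)) (2 * k)
      rw [div_le_iff₀ hf] at this
      linarith
    have e3 : Real.exp |t * S| ≤ Real.exp (t * S) + Real.exp (-t * S) := by
      rcases abs_cases (t * S) with ⟨h, _⟩ | ⟨h, _⟩
      · rw [h]
        have := Real.exp_pos (-t * S)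
        linarith
      · rw [h, ← neg_mul]
        have := Real.exp_pos (t * S)
        linarith
    have hVk : 0 ≤ V ^ k := by positivity
    rw [e1]
    calc V ^ k * |t * S| ^ (2 * k) ≤ V ^ k * ((2 * k).factorial * Real.exp |t * S|) :=
          mul_le_mul_of_nonneg_left e2 hVk
      _ = ((2 * k).factorial * V ^ k) * Real.exp |t * S| := by ring
      _ ≤ _ := mul_le_mul_of_nonneg_left e3 (by positivity)
  have hm1 := exp_moment P hP h hper h1 h0 t (by rw [abs_of_pos ht0]; exact ht1)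
  have hm2 := exp_moment P hP h hper h1 h0 (-t) (by rw [abs_neg, abs_of_pos ht0]; exact ht1)
  have hexp : Real.exp (t ^ 2 * ∑ p ∈ P, (∑ n ∈ range p, h p n ^ 2) / p) ≤ Real.exp 1 := by
    apply Real.exp_le_exp.mpr
    calc t ^ 2 * ∑ p ∈ P, (∑ n ∈ range p, h p n ^ 2) / p ≤ t ^ 2 * V :=
          mul_le_mul_of_nonneg_left hV (by positivity)
      _ = 1 := ht2
  rw [neg_sq] at hm2
  have hM0 : (0 : ℝ) ≤ ((∏ p ∈ P, p : ℕ) : ℝ) := Nat.cast_nonneg _
  have hm3 := mul_le_mul_of_nonneg_left hexp hM0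
  calc ∑ n ∈ range (∏ p ∈ P, p), (∑ p ∈ P, h p n) ^ (2 * k)
      ≤ ∑ n ∈ range (∏ p ∈ P, p), ((2 * k).factorial * V ^ k) *
        (Real.exp (t * ∑ p ∈ P, h p n) + Real.exp (-t * ∑ p ∈ P, h p n)) :=
        sum_le_sum fun n _ => hpt n
    _ = ((2 * k).factorial * V ^ k) * (∑ n ∈ range (∏ p ∈ P, p), Real.exp (t * ∑ p ∈ P, h p n) +
        ∑ n ∈ range (∏ p ∈ P, p), Real.exp (-t * ∑ p ∈ P, h p n)) := by
        rw [← mul_sum, sum_add_distrib]
    _ ≤ ((2 * k).factorial * V ^ k) * (((∏ p ∈ P, p : ℕ) : ℝ) * Real.exp 1 +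
        ((∏ p ∈ P, p : ℕ) : ℝ) * Real.exp 1) := by
        apply mul_le_mul_of_nonneg_left _ (by positivity)
        linarith
    _ = _ := by ring

/-- incomplete and complete averages -/
theorem compare (G : ℕ → ℝ) (Q M N : ℕ) (hQ : 0 < Q) (hM : 0 < M) (hQM : Q ∣ M) (hG : Per G Q)
    (h1 : ∀ n, |G n| ≤ 1) :
    ∑ n ∈ range N, G n ≤ (N / M : ℝ) * ∑ n ∈ range M, G n + 2 * Q := by
  obtain ⟨c, rfl⟩ := hQM
  have hc : 0 < c := Nat.pos_of_mul_pos_left hM |> fun h => by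
    rcases Nat.eq_zero_or_pos c with h0 | h0
    · rw [h0, mul_zero] at hM
      exact absurd hM (lt_irrefl 0)
    · exact h0
  have hQr : (0 : ℝ) < Q := by exact_mod_cast hQ
  have hcr : (0 : ℝ) < c := by exact_mod_cast hc
  obtain ⟨T, hT⟩ : ∃ T : ℝ, T = ∑ n ∈ range Q, G n := ⟨_, rfl⟩
  have hTle : |T| ≤ Q := by
    rw [hT]
    refine (abs_sum_le_sum_abs _ _).trans ?_
    refine (sum_le_sum fun x _ => h1 x).trans ?_
    simp
  have e1 : ∑ n ∈ range (Q * c), G n = c * T := by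
    rw [mul_comm, sum_range_mul hG, hT]
  have e : N = N / Q * Q + N % Q := by rw [mul_comm]; exact (Nat.div_add_mod N Q).symm
  have e2 : ∑ n ∈ range N, G n = ((N / Q : ℕ) : ℝ) * T +
      ∑ x ∈ range (N % Q), G (N / Q * Q + x) := by
    conv_lhs => rw [e]
    rw [sum_range_add, sum_range_mul hG, hT]
  have hmod : ((N % Q : ℕ) : ℝ) ≤ Q := by exact_mod_cast (Nat.mod_lt N hQ).le
  have h5 : ∑ x ∈ range (N % Q), G (N / Q * Q + x) ≤ Q := by
    refine (sum_le_sum (g := fun _ => (1 : ℝ)) fun x _ => (le_abs_self _).trans (h1 _)).trans ?_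
    simp only [sum_const, card_range, nsmul_eq_mul, mul_one]
    exact hmod
  have er : (N : ℝ) = ((N / Q : ℕ) : ℝ) * Q + ((N % Q : ℕ) : ℝ) := by exact_mod_cast e
  rw [e1, e2]
  have e3 : (N / ((Q * c : ℕ) : ℝ)) * (c * T) = ((N / Q : ℕ) : ℝ) * T + ((N % Q : ℕ) : ℝ) / Q * T := by
    conv_lhs => rw [er]
    push_cast
    field_simp
  rw [e3]
  have h6 : -(Q : ℝ) ≤ ((N % Q : ℕ) : ℝ) / Q * T := by
    have h7 : |((N % Q : ℕ) : ℝ) / Q * T| ≤ Q := by
      rw [abs_mul]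
      have h8 : |((N % Q : ℕ) : ℝ) / Q| ≤ 1 := by
        rw [abs_of_nonneg (by positivity), div_le_one hQr]
        exact hmod
      calc |((N % Q : ℕ) : ℝ) / Q| * |T| ≤ 1 * Q :=
            mul_le_mul h8 hTle (abs_nonneg _) (by norm_num)
        _ = Q := one_mul _
    exact (abs_le.mp h7).1
  linarith

/-- even moments over an interval -/
theorem moment (P : Finset ℕ) (x : ℕ) (hP : ∀ p ∈ P, p.Prime ∧ p ≤ x) (h : ℕ → ℕ → ℝ)
    (hper : ∀ p ∈ P, Per (h p) p) (h1 : ∀ p n, |h p n| ≤ 1)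
    (h0 : ∀ p ∈ P, ∑ n ∈ range p, h p n = 0) (V : ℝ) (hV1 : 1 ≤ V)
    (hV : ∑ p ∈ P, (∑ n ∈ range p, h p n ^ 2) / p ≤ V) (k N : ℕ) (hN : x ^ (4 * k) ≤ N) :
    ∑ n ∈ range N, (∑ p ∈ P, h p n) ^ (2 * k) ≤
      N * (((2 * k).factorial * (2 * Real.exp 1) + 2) * V ^ k) := by
  classical
  obtain ⟨M, hM⟩ : ∃ M : ℕ, M = ∏ p ∈ P, p := ⟨_, rfl⟩
  have hM0 : 0 < M := by rw [hM]; exact prod_pos fun p hp => (hP p hp).1.pos
  have hMr : (0 : ℝ) < M := by exact_mod_cast hM0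
  have hfull := full_moment P (fun p hp => (hP p hp).1) h hper h1 h0 V hV1 hV k
  rw [← hM] at hfull
  have hexpand : ∀ L : ℕ, ∑ n ∈ range L, (∑ p ∈ P, h p n) ^ (2 * k) =
      ∑ c ∈ Fintype.piFinset (fun _ : Fin (2 * k) => P), ∑ n ∈ range L, ∏ i, h (c i) n := by
    intro L
    rw [sum_comm]
    refine sum_congr rfl fun n _ => ?_
    rw [sum_pow']
  have hterm : ∀ c ∈ Fintype.piFinset (fun _ : Fin (2 * k) => P),
      ∑ n ∈ range N, ∏ i, h (c i) n ≤ (N / M : ℝ) * ∑ n ∈ range M, ∏ i, h (c i) n +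
        2 * (x : ℝ) ^ (2 * k) := by
    intro c hc
    rw [Fintype.mem_piFinset] at hc
    obtain ⟨Q, hQ⟩ : ∃ Q : ℕ, Q = ∏ p ∈ univ.image c, p := ⟨_, rfl⟩
    have himg : univ.image c ⊆ P := by
      intro p hp
      rw [mem_image] at hp
      obtain ⟨i, _, rfl⟩ := hp
      exact hc i
    have hQ0 : 0 < Q := by rw [hQ]; exact prod_pos fun p hp => (hP p (himg hp)).1.pos
    have hQM : Q ∣ M := by rw [hQ, hM]; exact prod_dvd_prod_of_subset _ _ _ himg
    have hQx : Q ≤ x ^ (2 * k) := by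
      rcases Nat.eq_zero_or_pos (2 * k) with hk0 | hk0
      · rw [hQ]
        have : univ.image c = ∅ := by
          rw [image_eq_empty, univ_eq_empty_iff]
          rw [hk0]
          infer_instance
        rw [this, prod_empty, hk0, pow_zero]
      · have hx1 : 1 ≤ x := by
          have h2 := hP (c ⟨0, hk0⟩) (hc ⟨0, hk0⟩)
          exact h2.1.pos.trans_le h2.2
        calc Q ≤ ∏ p ∈ univ.image c, x := by
              rw [hQ]
              exact prod_le_prod' fun p hp => (hP p (himg hp)).2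
          _ = x ^ (univ.image c).card := prod_const _
          _ ≤ x ^ (2 * k) := Nat.pow_le_pow_right hx1 (by
              have := card_image_le (s := univ) (f := c)
              rwa [card_univ, Fintype.card_fin] at this)
    have hper' : Per (fun n => ∏ i, h (c i) n) Q := by
      intro n
      refine prod_congr rfl fun i _ => ?_
      have hd : c i ∣ Q := by
        rw [hQ]
        exact dvd_prod_of_mem _ (mem_image_of_mem c (mem_univ i))
      exact ((hper (c i) (hc i)).of_dvd hd) n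
    have hle' : ∀ n, |∏ i, h (c i) n| ≤ 1 := by
      intro n
      rw [abs_prod]
      exact prod_le_one (fun i _ => abs_nonneg _) fun i _ => h1 _ _
    have h3 := compare (fun n => ∏ i, h (c i) n) Q M N hQ0 hM0 hQM hper' hle'
    have h4 : (Q : ℝ) ≤ (x : ℝ) ^ (2 * k) := by exact_mod_cast hQx
    linarith
  rw [hexpand N]
  refine (sum_le_sum hterm).trans ?_
  rw [sum_add_distrib, ← mul_sum, ← hexpand M, sum_const, Fintype.card_piFinset_const,
    nsmul_eq_mul]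
  have hNr : (0 : ℝ) ≤ N := Nat.cast_nonneg N
  have h5 : (N / M : ℝ) * ∑ n ∈ range M, (∑ p ∈ P, h p n) ^ (2 * k) ≤
      N * ((2 * k).factorial * (2 * Real.exp 1) * V ^ k) := by
    calc (N / M : ℝ) * ∑ n ∈ range M, (∑ p ∈ P, h p n) ^ (2 * k) ≤
        (N / M : ℝ) * (M * ((2 * k).factorial * (2 * Real.exp 1) * V ^ k)) :=
          mul_le_mul_of_nonneg_left hfull (by positivity)
      _ = _ := by field_simp
  have hPc : P.card ≤ x := by
    have h6 : P ⊆ Icc 1 x := by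
      intro p hp
      rw [mem_Icc]
      exact ⟨(hP p hp).1.pos, (hP p hp).2⟩
    have := card_le_card h6
    rwa [Nat.card_Icc, Nat.add_sub_cancel] at this
  have h7 : ((P.card ^ (2 * k) : ℕ) : ℝ) * (2 * (x : ℝ) ^ (2 * k)) ≤ N * (2 * V ^ k) := by
    have h8 : ((P.card ^ (2 * k) : ℕ) : ℝ) ≤ (x : ℝ) ^ (2 * k) := by
      push_cast
      exact pow_le_pow_left₀ (Nat.cast_nonneg _) (by exact_mod_cast hPc) _
    have h9 : (x : ℝ) ^ (2 * k) * (x : ℝ) ^ (2 * k) ≤ N := by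
      rw [← pow_add]
      have e1 : 2 * k + 2 * k = 4 * k := by ring
      rw [e1]
      exact_mod_cast hN
    have h10 : (1 : ℝ) ≤ V ^ k := one_le_pow₀ hV1
    calc ((P.card ^ (2 * k) : ℕ) : ℝ) * (2 * (x : ℝ) ^ (2 * k))
        ≤ (x : ℝ) ^ (2 * k) * (2 * (x : ℝ) ^ (2 * k)) :=
          mul_le_mul_of_nonneg_right h8 (by positivity)
      _ = 2 * ((x : ℝ) ^ (2 * k) * (x : ℝ) ^ (2 * k)) := by ring
      _ ≤ 2 * N := by linarith
      _ ≤ N * (2 * V ^ k) := by nlinarith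
  calc _ ≤ N * ((2 * k).factorial * (2 * Real.exp 1) * V ^ k) + N * (2 * V ^ k) :=
        add_le_add h5 h7
    _ = _ := by ring

end Pool.Agent.R418.GE
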