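import Pool.Agent.R418.GE.A

set_option autoImplicit false

/-! Independence of the primes: many families of events at once. -/

namespace Pool.Agent.R418.GE

open Finset Pool.Agent.TH869.EVF

/-- the primes up to `x` -/
def pr (x : ℕ) : Finset ℕ := (range (x + 1)).filter Nat.Prime

theorem mem_pr {x p : ℕ} : p ∈ pr x ↔ p.Prime ∧ p ≤ x := by
  rw [pr, mem_filter, mem_range]
  constructor
  · rintro ⟨h1, h2⟩
    exact ⟨h2, by omega⟩
  · rintro ⟨h1, h2⟩
    exact ⟨by omega, h1⟩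

/-- the mean value over the residues modulo `p` -/
noncomputable def mean (p : ℕ) (G : ℕ → ℝ) : ℝ := (∑ n ∈ range p, G n) / p

/-- a sum over the primes -/
noncomputable def cnt (g : ℕ → ℕ → ℝ) (x j : ℕ) : ℝ := ∑ p ∈ pr x, g p j

/-- its model -/
noncomputable def mdl (g : ℕ → ℕ → ℝ) (x : ℕ) : ℝ := ∑ p ∈ pr x, mean p (g p)

/-- the conditions on the functions -/
def Sys (g : ℕ → ℕ → ℝ) : Prop := (∀ p n, 0 ≤ g p n ∧ g p n ≤ 1) ∧
  ∀ p : ℕ, p.Prime → Per (g p) p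

theorem mean_mem {g : ℕ → ℕ → ℝ} (hg : Sys g) (p : ℕ) : 0 ≤ mean p (g p) ∧ mean p (g p) ≤ 1 := by
  have h1 : 0 ≤ ∑ n ∈ range p, g p n := sum_nonneg fun n _ => (hg.1 p n).1
  have h2 : ∑ n ∈ range p, g p n ≤ p := by
    refine (sum_le_sum (g := fun _ => (1 : ℝ)) fun n _ => (hg.1 p n).2).trans ?_
    simp
  refine ⟨div_nonneg h1 (Nat.cast_nonneg p), div_le_one_of_le₀ h2 (Nat.cast_nonneg p)⟩

theorem markov (g : ℕ → ℕ → ℝ) (hg : Sys g) (δ : ℝ) (k x N : ℕ) (hx : 1 ≤ x)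
    (hN : x ^ (4 * k) ≤ N) :
    (((range N).filter (fun j => √(max 1 (mdl g x)) * (x : ℝ) ^ δ <
      |cnt g x j - mdl g x|)).card : ℝ) * (x : ℝ) ^ (2 * k * δ) ≤
        N * ((2 * k).factorial * (2 * Real.exp 1) + 2) := by
  classical
  obtain ⟨V, hV⟩ : ∃ V : ℝ, V = max 1 (mdl g x) := ⟨_, rfl⟩
  have hV1 : 1 ≤ V := by rw [hV]; exact le_max_left _ _
  have hV0 : 0 < V := by linarith
  have hVm : mdl g x ≤ V := by rw [hV]; exact le_max_right _ _
  have hxr : (1 : ℝ) ≤ x := by exact_mod_cast hx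
  have hx0 : (0 : ℝ) < x := by linarith
  obtain ⟨h, hh⟩ : ∃ h : ℕ → ℕ → ℝ, h = fun p n => g p n - mean p (g p) := ⟨_, rfl⟩
  have hm := moment (pr x) x (fun p hp => mem_pr.mp hp) h
    (fun p hp n => by
      rw [hh]
      simp only
      rw [hg.2 p (mem_pr.mp hp).1 n])
    (fun p n => by
      rw [hh, abs_le]
      have h1 := hg.1 p n
      have h2 := mean_mem hg p
      constructor <;> simp only <;> linarith)
    (fun p hp => by
      have hp0 : (p : ℝ) ≠ 0 := by exact_mod_cast (mem_pr.mp hp).1.ne_zero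
      rw [hh]
      simp only
      rw [sum_sub_distrib, sum_const, card_range, nsmul_eq_mul, mean, mul_div_cancel₀ _ hp0,
        sub_self])
    V hV1 (by
      refine le_trans (sum_le_sum fun p hp => ?_) hVm
      have hp0 : (0 : ℝ) < p := by exact_mod_cast (mem_pr.mp hp).1.pos
      rw [div_le_iff₀ hp0]
      have e1 : mean p (g p) * p = ∑ n ∈ range p, g p n := by
        rw [mean, div_mul_cancel₀ _ hp0.ne']
      have h2 := mean_mem hg p
      rw [hh]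
      simp only
      have e2 : ∑ n ∈ range p, (g p n - mean p (g p)) ^ 2 =
          ∑ n ∈ range p, g p n ^ 2 - 2 * mean p (g p) * ∑ n ∈ range p, g p n +
            p * mean p (g p) ^ 2 := by
        have : ∀ n, (g p n - mean p (g p)) ^ 2 = g p n ^ 2 - 2 * mean p (g p) * g p n +
          mean p (g p) ^ 2 := fun n => by ring
        rw [sum_congr rfl fun n _ => this n, sum_add_distrib, sum_sub_distrib, ← mul_sum,
          sum_const, card_range, nsmul_eq_mul]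
      have e3 : ∑ n ∈ range p, g p n ^ 2 ≤ ∑ n ∈ range p, g p n := by
        refine sum_le_sum fun n _ => ?_
        have h1 := hg.1 p n
        nlinarith
      rw [e2, e1, ← e1]
      have e4 : 0 ≤ (p : ℝ) * mean p (g p) ^ 2 := by positivity
      have e5 : 2 * mean p (g p) * (mean p (g p) * p) = 2 * (p * mean p (g p) ^ 2) := by ring
      rw [e5]
      have e6 : ∑ n ∈ range p, g p n ^ 2 ≤ mean p (g p) * p := by rw [e1]; exact e3
      linarith)
    k N hN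
  have hsum : ∀ j, ∑ p ∈ pr x, h p j = cnt g x j - mdl g x := by
    intro j
    rw [hh]
    simp only
    rw [sum_sub_distrib]
    rfl
  rw [← hV]
  have hVk : (0 : ℝ) < V ^ k := by positivity
  have key : (((range N).filter (fun j => √V * (x : ℝ) ^ δ < |cnt g x j - mdl g x|)).card : ℝ) *
      (V ^ k * (x : ℝ) ^ (2 * k * δ)) ≤ ∑ n ∈ range N, (∑ p ∈ pr x, h p n) ^ (2 * k) := by
    rw [← nsmul_eq_mul, ← sum_const]
    refine le_trans (sum_le_sum fun j hj => ?_)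
      (sum_le_sum_of_subset_of_nonneg (filter_subset _ _) fun _ _ _ => by
        rw [pow_mul]; positivity)
    rw [mem_filter] at hj
    rw [hsum]
    have h1 : (√V * (x : ℝ) ^ δ) ^ (2 * k) ≤ |cnt g x j - mdl g x| ^ (2 * k) :=
      pow_le_pow_left₀ (by positivity) hj.2.le _
    rw [mul_pow, pow_mul (√V), Real.sq_sqrt hV0.le, pow_mul |cnt g x j - mdl g x|, sq_abs,
      ← pow_mul] at h1
    refine le_trans (le_of_eq ?_) h1
    congr 1
    rw [← Real.rpow_natCast, ← Real.rpow_mul hx0.le]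
    congr 1
    push_cast
    ring
  have h3 := key.trans hm
  have h4 : (((range N).filter (fun j => √V * (x : ℝ) ^ δ < |cnt g x j - mdl g x|)).card : ℝ) *
      (x : ℝ) ^ (2 * k * δ) * V ^ k ≤ N * ((2 * k).factorial * (2 * Real.exp 1) + 2) * V ^ k := by
    calc _ = (((range N).filter (fun j => √V * (x : ℝ) ^ δ < |cnt g x j - mdl g x|)).card : ℝ) *
      (V ^ k * (x : ℝ) ^ (2 * k * δ)) := by ring
      _ ≤ _ := h3
      _ = _ := by ring
  exact le_of_mul_le_mul_right h4 hVk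

/-- **independence of the primes** -/
theorem general (δ : ℝ) (A B : ℕ) (hδ : 0 < δ) : ∃ W X₀ : ℕ, 1 ≤ W ∧ 1 ≤ X₀ ∧
    ∀ (ι : Type) (R : ℕ → Finset ι) (g : ℕ → ι → ℕ → ℕ → ℝ), (∀ x, (R x).card ≤ x ^ B) →
      (∀ x r, Sys (g x r)) → ∀ X N : ℕ, X₀ ≤ X → ∀ T : Finset ℕ,
      (∀ j ∈ T, j < N ∧ ∃ x, X ≤ x ∧ x ^ W ≤ N ∧ ∃ r ∈ R x,
        √(max 1 (mdl (g x r) x)) * (x : ℝ) ^ δ < |cnt (g x r) x j - mdl (g x r) x|) →
      (T.card : ℝ) * (X : ℝ) ^ A ≤ N := by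
  obtain ⟨k, hk⟩ : ∃ k : ℕ, k = ⌈(A + B + 3 : ℝ) / (2 * δ)⌉₊ + 1 := ⟨_, rfl⟩
  have hkδ : (A + B + 3 : ℝ) ≤ 2 * k * δ := by
    have h1 : (A + B + 3 : ℝ) / (2 * δ) ≤ k := by
      rw [hk]
      push_cast
      have := Nat.le_ceil ((A + B + 3 : ℝ) / (2 * δ))
      linarith
    rw [div_le_iff₀ (by positivity)] at h1
    linarith
  obtain ⟨C, hC⟩ : ∃ C : ℝ, C = (2 * k).factorial * (2 * Real.exp 1) + 2 := ⟨_, rfl⟩
  have hC0 : 0 < C := by rw [hC]; positivity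
  refine ⟨4 * k, ⌈2 * C⌉₊ + 1, by omega, by omega, ?_⟩
  intro ι R g hR hg X N hX T hT
  classical
  have hX1 : 1 ≤ X := by omega
  have hXr : (1 : ℝ) ≤ X := by exact_mod_cast hX1
  have hXC : 2 * C ≤ X := by
    have h1 : ((⌈2 * C⌉₊ + 1 : ℕ) : ℝ) ≤ X := by exact_mod_cast hX
    push_cast at h1
    have := Nat.le_ceil (2 * C)
    linarith
  obtain ⟨S, hS⟩ : ∃ S : ℕ → ι → Finset ℕ, S = fun x r => (range N).filter (fun j =>
    √(max 1 (mdl (g x r) x)) * (x : ℝ) ^ δ < |cnt (g x r) x j - mdl (g x r) x|) := ⟨_, rfl⟩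
  have hSc : ∀ x : ℕ, X ≤ x → x ^ (4 * k) ≤ N → ∀ r, ((S x r).card : ℝ) * (x : ℝ) ^ (A + B + 3) ≤
      N * C := by
    intro x hx hxN r
    have hx1 : 1 ≤ x := hX1.trans hx
    have hxr : (1 : ℝ) ≤ x := by exact_mod_cast hx1
    have h1 := markov (g x r) (hg x r) δ k x N hx1 hxN
    rw [← hC] at h1
    rw [hS]
    refine le_trans (mul_le_mul_of_nonneg_left ?_ (Nat.cast_nonneg _)) h1
    rw [← Real.rpow_natCast]
    apply Real.rpow_le_rpow_of_exponent_le hxr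
    push_cast
    exact hkδ
  obtain ⟨Y, hY⟩ : ∃ Y : Finset ℕ, Y = (Icc X N).filter (fun x => x ^ (4 * k) ≤ N) := ⟨_, rfl⟩
  have key : T ⊆ Y.biUnion fun x => (R x).biUnion fun r => S x r := by
    intro j hj
    obtain ⟨hjN, x, hx1, hx2, r, hr, hbad⟩ := hT j hj
    rw [mem_biUnion]
    refine ⟨x, ?_, ?_⟩
    · rw [hY, mem_filter, mem_Icc]
      refine ⟨⟨hx1, ?_⟩, hx2⟩
      exact (Nat.le_self_pow (by omega) x).trans hx2
    · rw [mem_biUnion]
      refine ⟨r, hr, ?_⟩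
      rw [hS]
      simp only [mem_filter, mem_range]
      exact ⟨hjN, hbad⟩
  have h1 : (T.card : ℝ) ≤ ∑ x ∈ Y, ∑ r ∈ R x, ((S x r).card : ℝ) := by
    have h2 : T.card ≤ ∑ x ∈ Y, ∑ r ∈ R x, (S x r).card :=
      (card_le_card key).trans (card_biUnion_le.trans (sum_le_sum fun x _ => card_biUnion_le))
    exact_mod_cast h2
  have h2 : ∀ x ∈ Y, (∑ r ∈ R x, ((S x r).card : ℝ)) * (X : ℝ) ^ (A + 1) ≤
      N * C * ((x : ℝ) ^ 2)⁻¹ := by
    intro x hx
    rw [hY, mem_filter, mem_Icc] at hx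
    have hx1 : 1 ≤ x := hX1.trans hx.1.1
    have hxr : (1 : ℝ) ≤ x := by exact_mod_cast hx1
    have hx0 : (0 : ℝ) < x := by linarith
    have h3 : (∑ r ∈ R x, ((S x r).card : ℝ)) * (x : ℝ) ^ (A + B + 3) ≤ (x : ℝ) ^ B * (N * C) := by
      rw [sum_mul]
      refine (sum_le_sum fun r _ => hSc x hx.1.1 hx.2 r).trans ?_
      rw [sum_const, nsmul_eq_mul]
      refine mul_le_mul_of_nonneg_right ?_ (by positivity)
      exact_mod_cast hR x
    have h4 : (X : ℝ) ^ (A + 1) ≤ (x : ℝ) ^ (A + 1) :=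
      pow_le_pow_left₀ (by linarith) (by exact_mod_cast hx.1.1) _
    have h5 : 0 ≤ ∑ r ∈ R x, ((S x r).card : ℝ) := sum_nonneg fun _ _ => Nat.cast_nonneg _
    have h6 : (∑ r ∈ R x, ((S x r).card : ℝ)) * (x : ℝ) ^ (A + 1) * ((x : ℝ) ^ B * (x : ℝ) ^ 2) ≤
        N * C * ((x : ℝ) ^ 2)⁻¹ * ((x : ℝ) ^ B * (x : ℝ) ^ 2) := by
      calc _ = (∑ r ∈ R x, ((S x r).card : ℝ)) * (x : ℝ) ^ (A + B + 3) := by ring
        _ ≤ (x : ℝ) ^ B * (N * C) := h3
        _ = _ := by field_simp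
    have h7 := le_of_mul_le_mul_right h6 (by positivity)
    exact (mul_le_mul_of_nonneg_left h4 h5).trans h7
  have h3 : (T.card : ℝ) * (X : ℝ) ^ (A + 1) ≤ N * C * 2 := by
    calc (T.card : ℝ) * (X : ℝ) ^ (A + 1) ≤
        (∑ x ∈ Y, ∑ r ∈ R x, ((S x r).card : ℝ)) * (X : ℝ) ^ (A + 1) :=
          mul_le_mul_of_nonneg_right h1 (by positivity)
      _ = ∑ x ∈ Y, (∑ r ∈ R x, ((S x r).card : ℝ)) * (X : ℝ) ^ (A + 1) := sum_mul _ _ _
      _ ≤ ∑ x ∈ Y, N * C * ((x : ℝ) ^ 2)⁻¹ := sum_le_sum h2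
      _ = N * C * ∑ x ∈ Y, ((x : ℝ) ^ 2)⁻¹ := by rw [mul_sum]
      _ ≤ N * C * ∑ x ∈ Ioo 0 (N + 1), ((x : ℝ) ^ 2)⁻¹ := by
          apply mul_le_mul_of_nonneg_left _ (by positivity)
          apply sum_le_sum_of_subset_of_nonneg
          · intro x hx
            rw [hY, mem_filter, mem_Icc] at hx
            rw [mem_Ioo]
            omega
          · intro _ _ _
            positivity
      _ ≤ N * C * 2 := by
          apply mul_le_mul_of_nonneg_left _ (by positivity)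
          have := sum_Ioo_inv_sq_le (α := ℝ) 0 (N + 1)
          simpa using this
  have h4 : (T.card : ℝ) * (X : ℝ) ^ A * X ≤ N * X := by
    calc (T.card : ℝ) * (X : ℝ) ^ A * X = (T.card : ℝ) * (X : ℝ) ^ (A + 1) := by ring
      _ ≤ N * C * 2 := h3
      _ = N * (2 * C) := by ring
      _ ≤ N * X := mul_le_mul_of_nonneg_left hXC (Nat.cast_nonneg N)
  exact le_of_mul_le_mul_right h4 (by linarith)

end Pool.Agent.R418.GE
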